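import Mathlib
import Pool.Agent.H168.CY.Core

/-!
# MP_e3ef68_co: coverings of the unit ball by cylinders over coordinate planes

A `(d-2)`-codimensional cylinder of `ℝ^d` is a set `H + B`, where `H` is a linear subspace of dimension `d - 2` and
`B` is a measurable subset of the plane `Hᗮ`. We prove the dimension-free lower bound `3 / 34` for the sum of the
base areas of every covering of the closed unit ball by cylinders whose base planes `Hᗮ` are spanned by two vectors
of one (arbitrary) orthonormal basis.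
-/

set_option autoImplicit false

namespace Pool.Agent.Results.MP_e3ef68_co.CoordinatePlanes

open MeasureTheory Finset
open scoped ENNReal RealInnerProductSpace

variable {V : Type} [NormedAddCommGroup V] [InnerProductSpace ℝ V] [FiniteDimensional ℝ V]
  [MeasurableSpace V] [BorelSpace V] {κ : Type} [Fintype κ]

/-- the coordinates of the points of a base, as a planar set -/
lemma exists_planar (e : OrthonormalBasis κ ℝ V) (K : Submodule ℝ V) (p q : κ) (hpq : p ≠ q)
    (hK : K = Submodule.span ℝ {e p, e q}) (B : Set ↥K) (hB : MeasurableSet B) :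
    ∃ T : Set (ℝ × ℝ), MeasurableSet T ∧ volume T = volume B ∧
      ∀ y ∈ B, (⟪e p, (y : V)⟫, ⟪e q, (y : V)⟫) ∈ T := by
  have hp : e p ∈ K := by rw [hK]; exact Submodule.subset_span (by simp)
  have hq : e q ∈ K := by rw [hK]; exact Submodule.subset_span (by simp)
  have e11 : ∀ i : κ, ⟪e i, e i⟫ = 1 := fun i => by
    rw [real_inner_self_eq_norm_sq, e.norm_eq_one]; norm_num
  have e10 : ∀ i j : κ, i ≠ j → ⟪e i, e j⟫ = 0 := fun i j h => e.orthonormal.2 h
  set w : Fin 2 → ↥K := ![⟨e p, hp⟩, ⟨e q, hq⟩] with hw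
  have hon : Orthonormal ℝ w := by
    rw [orthonormal_iff_ite]
    intro i j
    fin_cases i <;> fin_cases j
    · simp [hw]
    · simpa [hw] using e10 p q hpq
    · simpa [hw] using e10 q p (Ne.symm hpq)
    · simp [hw]
  have hpair : ∀ y : ↥K, ∃ a b : ℝ, a • e p + b • e q = (y : V) := by
    intro y
    have h1 : (y : V) ∈ Submodule.span ℝ {e p, e q} := by
      rw [← hK]; exact y.2
    exact Submodule.mem_span_pair.1 h1
  have hsp : ⊤ ≤ Submodule.span ℝ (Set.range w) := by
    intro y _
    obtain ⟨a, b, hab⟩ := hpair y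
    have h1 : y = a • w 0 + b • w 1 := by
      apply Subtype.ext
      simp [hw, hab]
    rw [h1]
    exact Submodule.add_mem _ (Submodule.smul_mem _ _ (Submodule.subset_span ⟨0, rfl⟩))
      (Submodule.smul_mem _ _ (Submodule.subset_span ⟨1, rfl⟩))
  set b2 : OrthonormalBasis (Fin 2) ℝ ↥K := OrthonormalBasis.mk hon hsp with hb2
  set ψ : ℝ × ℝ → ↥K := fun z =>
    b2.repr.symm (WithLp.toLp 2 (MeasurableEquiv.finTwoArrow.symm z)) with hψ
  have hmp : MeasurePreserving ψ volume volume :=
    (b2.measurePreserving_repr_symm.comp (PiLp.volume_preserving_toLp (Fin 2))).comp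
      ((volume_preserving_finTwoArrow ℝ).symm _)
  have hψv : ∀ z : ℝ × ℝ, ((ψ z : ↥K) : V) = z.1 • e p + z.2 • e q := by
    intro z
    rw [hψ]
    simp only
    rw [← OrthonormalBasis.sum_repr_symm, Fin.sum_univ_two]
    simp [hb2, hw, MeasurableEquiv.finTwoArrow]
  refine ⟨ψ ⁻¹' B, hmp.measurable hB, hmp.measure_preimage hB.nullMeasurableSet, ?_⟩
  intro y hy
  have h1 : ψ (⟪e p, (y : V)⟫, ⟪e q, (y : V)⟫) = y := by
    apply Subtype.ext
    rw [hψv]
    obtain ⟨a, b, hab⟩ := hpair y
    simp only
    rw [← hab, inner_add_right, inner_add_right, inner_smul_right, inner_smul_right,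
      inner_smul_right, inner_smul_right, e11, e11, e10 p q hpq, e10 q p (Ne.symm hpq)]
    simp
  show ψ _ ∈ B
  rw [h1]
  exact hy

/-- the data of a cylinder `H + B` in the Euclidean space `V`: a linear subspace `H` and a measurable subset `B` (the base) of the
orthogonal complement of `H` -/
structure Cylinder (V : Type) [NormedAddCommGroup V] [InnerProductSpace ℝ V] [MeasurableSpace V] where
  /-- the direction space -/
  H : Submodule ℝ V
  /-- the base -/
  B : Set ↥Hᗮ
  /-- the base is measurable -/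
  measurable : MeasurableSet B

/-- the point set `H + B` -/
def Cylinder.toSet (C : Cylinder V) : Set V :=
  {x | ∃ h ∈ C.H, ∃ b ∈ C.B, x = h + (b : V)}

/-- the Lebesgue measure of the base, in the orthogonal complement of `H` -/
noncomputable def Cylinder.baseVol (C : Cylinder V) : ℝ≥0∞ := volume C.B

/-- the orthogonal complement of `H` is the plane spanned by two different vectors of the orthonormal basis `e`
(so `H` has dimension `d - 2`) -/
def Cylinder.OverPlaneOf (C : Cylinder V) (e : OrthonormalBasis κ ℝ V) : Prop :=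
  ∃ p q : κ, p ≠ q ∧ C.Hᗮ = Submodule.span ℝ {e p, e q}

lemma main {ι : Type} [Countable ι]
    (e : OrthonormalBasis κ ℝ V)
    (H : ι → Submodule ℝ V) (B : (i : ι) → Set ↥(H i)ᗮ)
    (hH : ∀ i, ∃ p q : κ, p ≠ q ∧ (H i)ᗮ = Submodule.span ℝ {e p, e q})
    (hB : ∀ i, MeasurableSet (B i))
    (hcov : Metric.closedBall (0 : V) 1 ⊆
      ⋃ i, {x : V |
        ∃ h ∈ H i, ∃ b ∈ B i, x = h + (b : V)}) :
    ENNReal.ofReal (3 / 34) ≤ ∑' i, volume (B i) := by
  classical
  by_contra hlt
  rw [not_le] at hlt
  choose p q hpq hspan using hH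
  choose T hTm hTv hT using fun i => exists_planar e (H i)ᗮ (p i) (q i) (hpq i) (hspan i) (B i) (hB i)
  -- the planar sets
  set A : κ → κ → Set (ℝ × ℝ) := fun j k =>
    ⋃ i, ((if p i = j ∧ q i = k then T i else ∅) ∪
      (if q i = j ∧ p i = k then Prod.swap ⁻¹' T i else ∅)) with hAdef
  have hAm : ∀ j k, MeasurableSet (A j k) := by
    intro j k
    refine MeasurableSet.iUnion fun i => MeasurableSet.union ?_ ?_
    · split_ifs
      · exact hTm i
      · exact MeasurableSet.empty
    · split_ifs
      · exact measurable_swap (hTm i)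
      · exact MeasurableSet.empty
  have hsym : ∀ j k, ∀ x y : ℝ, (x, y) ∈ A j k → (y, x) ∈ A k j := by
    intro j k x y h
    rw [hAdef, Set.mem_iUnion] at h
    obtain ⟨i, hi⟩ := h
    rw [hAdef, Set.mem_iUnion]
    refine ⟨i, ?_⟩
    rcases hi with hi | hi
    · right
      by_cases hc : p i = j ∧ q i = k
      · rw [if_pos hc] at hi
        rw [if_pos ⟨hc.2, hc.1⟩]
        exact hi
      · rw [if_neg hc] at hi
        exact absurd hi (Set.notMem_empty _)
    · left
      by_cases hc : q i = j ∧ p i = k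
      · rw [if_pos hc] at hi
        rw [if_pos ⟨hc.2, hc.1⟩]
        exact hi
      · rw [if_neg hc] at hi
        exact absurd hi (Set.notMem_empty _)
  set v : ι → ℝ≥0∞ := fun i => volume (B i) with hv
  set bE : κ → κ → ℝ≥0∞ := fun j k =>
    ∑' i, ((if p i = j ∧ q i = k then v i else 0) + (if q i = j ∧ p i = k then v i else 0)) with hbE
  have hAv : ∀ j k, volume (A j k) ≤ bE j k := by
    intro j k
    refine (measure_iUnion_le _).trans (ENNReal.tsum_le_tsum fun i => ?_)
    refine (measure_union_le _ _).trans (add_le_add ?_ ?_)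
    · split_ifs
      · rw [hTv i]
      · simp
    · split_ifs
      · have h1 : volume (Prod.swap ⁻¹' T i) = volume (T i) := by
          have h2 : MeasurePreserving (Prod.swap : ℝ × ℝ → ℝ × ℝ) volume volume := by
            rw [Measure.volume_eq_prod]
            exact Measure.measurePreserving_swap
          exact h2.measure_preimage (hTm i).nullMeasurableSet
        rw [h1, hTv i]
      · simp
  have hbs : ∀ j k, bE j k = bE k j := by
    intro j k
    rw [hbE]
    simp only
    refine tsum_congr fun i => ?_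
    rw [add_comm]
    congr 1 <;> simp only [and_comm]
  have hsum : ∑ j, ∑ k, bE j k = 2 * ∑' i, v i := by
    rw [hbE]
    simp only
    have h1 : ∀ j, ∑ k, ∑' i, ((if p i = j ∧ q i = k then v i else 0) +
        (if q i = j ∧ p i = k then v i else 0)) =
        ∑' i, ∑ k, ((if p i = j ∧ q i = k then v i else 0) +
        (if q i = j ∧ p i = k then v i else 0)) := fun j =>
      (Summable.tsum_finsetSum fun k _ => ENNReal.summable).symm
    simp only [h1]
    rw [← Summable.tsum_finsetSum fun k _ => ENNReal.summable, ← ENNReal.tsum_mul_left]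
    refine tsum_congr fun i => ?_
    have h2 : ∀ a b : κ, ∑ j, ∑ k, (if a = j ∧ b = k then v i else 0) = v i := by
      intro a b
      simp only [ite_and]
      simp
    simp only [Finset.sum_add_distrib]
    rw [h2, h2, two_mul]
  have hlt2 : ∑ j, ∑ k, bE j k < ENNReal.ofReal (3 / 17) := by
    rw [hsum]
    have h1 : ENNReal.ofReal (3 / 17) = 2 * ENNReal.ofReal (3 / 34) := by
      rw [← ENNReal.ofReal_ofNat, ← ENNReal.ofReal_mul (by norm_num)]
      norm_num
    rw [h1]
    exact (ENNReal.mul_lt_mul_iff_right (by norm_num) (by norm_num)).2 hlt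
  have hbfin : ∀ j k, bE j k ≠ ∞ := by
    intro j k h
    have h1 : bE j k ≤ ∑ j, ∑ k, bE j k :=
      (Finset.single_le_sum (f := fun k => bE j k) (fun _ _ => bot_le) (Finset.mem_univ k)).trans
        (Finset.single_le_sum (f := fun j => ∑ k, bE j k) (fun _ _ => bot_le) (Finset.mem_univ j))
    rw [h] at h1
    exact absurd (h1.trans_lt hlt2) (by simp)
  have hreal : ∑ j, ∑ k, (bE j k).toReal < 3 / 17 := by
    have h1 : ∑ j, ∑ k, (bE j k).toReal = (∑ j, ∑ k, bE j k).toReal := by
      rw [ENNReal.toReal_sum fun j _ => (ENNReal.sum_lt_top.2 fun k _ => (hbfin j k).lt_top).ne]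
      refine Finset.sum_congr rfl fun j _ => ?_
      rw [ENNReal.toReal_sum fun k _ => hbfin j k]
    rw [h1]
    exact (ENNReal.lt_ofReal_iff_toReal_lt (hlt2.trans ENNReal.ofReal_lt_top).ne).1 hlt2
  obtain ⟨x, hx1, hx2⟩ := Pool.Agent.H168.CY.choose_all A hAm hsym (fun j k => (bE j k).toReal)
    (fun j k => ENNReal.toReal_nonneg) (fun j k => by rw [hbs])
    (fun j k _ => by
      rw [ENNReal.ofReal_toReal (hbfin j k)]
      exact hAv j k) hreal
  -- the point
  set X : V := ∑ k, x k • e k with hX
  have hXin : ∀ k, ⟪e k, X⟫ = x k := by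
    intro k
    rw [hX]
    exact e.orthonormal.inner_right_fintype x k
  have hXball : X ∈ Metric.closedBall (0 : V) 1 := by
    rw [mem_closedBall_zero_iff]
    have h1 : ‖X‖ ^ 2 = ∑ k, x k ^ 2 := by
      rw [← e.sum_sq_norm_inner_right X]
      refine Finset.sum_congr rfl fun k _ => ?_
      rw [hXin k, Real.norm_eq_abs, sq_abs]
    have h2 : ‖X‖ ^ 2 < 1 ^ 2 := by rw [h1]; simpa using hx2
    exact (lt_of_pow_lt_pow_left₀ 2 zero_le_one h2).le
  obtain ⟨i, h, hh, b, hb, hXe⟩ := Set.mem_iUnion.1 (hcov hXball)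
  have hpB : e (p i) ∈ (H i)ᗮ := by rw [hspan i]; exact Submodule.subset_span (by simp)
  have hqB : e (q i) ∈ (H i)ᗮ := by rw [hspan i]; exact Submodule.subset_span (by simp)
  have hin : ∀ u ∈ (H i)ᗮ, ⟪u, X⟫ = ⟪u, (b : V)⟫ := by
    intro u hu
    rw [hXe, inner_add_right, (Submodule.mem_orthogonal' _ _).1 hu h hh, zero_add]
  have hmem : (x (p i), x (q i)) ∈ T i := by
    have h1 := hT i b hb
    rw [← hin _ hpB, ← hin _ hqB, hXin, hXin] at h1
    exact h1
  refine hx1 (p i) (q i) (hpq i) ?_
  rw [hAdef]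
  refine Set.mem_iUnion.2 ⟨i, Or.inl ?_⟩
  rw [if_pos ⟨rfl, rfl⟩]
  exact hmem

/-- **Result.** Let `e` be an orthonormal basis of the Euclidean space `V` (of any finite dimension `d`), and let the
closed unit ball of `V` be covered by
countably many cylinders `H + B` whose base planes `Hᗮ` are spanned by two different vectors of the basis `e`. Then
the areas of the bases sum to at least `3 / 34`, for every dimension `d`. -/
theorem result {ι : Type} [Countable ι] (e : OrthonormalBasis κ ℝ V) (C : ι → Cylinder V)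
    (hC : ∀ i, (C i).OverPlaneOf e)
    (hcov : Metric.closedBall (0 : V) 1 ⊆ ⋃ i, (C i).toSet) :
    ENNReal.ofReal (3 / 34) ≤ ∑' i, (C i).baseVol :=
  main e (fun i => (C i).H) (fun i => (C i).B) hC (fun i => (C i).measurable) hcov

end Pool.Agent.Results.MP_e3ef68_co.CoordinatePlanes
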